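import Mathlib

set_option autoImplicit false

/-!
# Subshifts and universality
-/

namespace Pool.Agent.H139R3.MS

open Set MeasureTheory

universe u

/-- The shift action of a group `G` on `{0,1}^G`. -/
def shift {G : Type} [Group G] (g : G) (x : G → Bool) : G → Bool := fun h => x (g⁻¹ * h)

/-- A subshift of `{0,1}^G`: a nonempty closed shift-invariant subset. -/
def IsSubshift {G : Type} [Group G] (K : Set (G → Bool)) : Prop :=
  K.Nonempty ∧ IsClosed K ∧ ∀ (g : G), ∀ x ∈ K, shift g x ∈ K

/-- A subshift is minimal if every orbit in it is dense in it. -/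
def IsMinimalSubshift {G : Type} [Group G] (K : Set (G → Bool)) : Prop :=
  IsSubshift K ∧ ∀ x ∈ K, K ⊆ closure (range fun g : G => shift g x)

/-- A countable Borel equivalence relation. -/
def IsCBER {Y : Type u} [MeasurableSpace Y] (R : Y → Y → Prop) : Prop :=
  Equivalence R ∧ MeasurableSet {p : Y × Y | R p.1 p.2} ∧ ∀ y, {z | R y z}.Countable

/-- The orbit equivalence relation of the shift action restricted to `K` is universal: every
countable Borel equivalence relation on a standard Borel space is Borel reducible to it. -/
def UniversalOn {G : Type} [Group G] (K : Set (G → Bool)) : Prop :=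
  ∀ (Y : Type u) [MeasurableSpace Y] [StandardBorelSpace Y] (R : Y → Y → Prop), IsCBER R →
    ∃ f : Y → K, Measurable f ∧
      ∀ y z, R y z ↔ ∃ g : G, ((f z : K) : G → Bool) = shift g ((f y : K) : G → Bool)

/-- The group `G` is minimal subshift universal. -/
def MinimalSubshiftUniversal (G : Type) [Group G] : Prop :=
  ∃ K : Set (G → Bool), IsMinimalSubshift K ∧ UniversalOn.{u} K

end Pool.Agent.H139R3.MS
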