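import Mathlib

set_option autoImplicit false

/-!
# The group `L = Z/3 * Z` and the action of the free group of rank two on `(Fin 3)^L`
-/

namespace Pool.Agent.H139R3.MS

open Set

/-- The relator `a ^ 3`. -/
def rel : Set (FreeGroup (Fin 2)) := {FreeGroup.of 0 ^ 3}

/-- The free product of a cyclic group of order three and an infinite cyclic group. -/
abbrev L := PresentedGroup rel

/-- the generator of order three -/
def a : L := PresentedGroup.of 0

/-- the free generator -/
def b : L := PresentedGroup.of 1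

theorem a_cube : a ^ 3 = 1 := by
  have h : (PresentedGroup.mk rel) (FreeGroup.of 0 ^ 3) = 1 :=
    PresentedGroup.one_of_mem (by simp [rel])
  rw [map_pow] at h
  exact h

/-- universal property -/
def lft {H : Type*} [Group H] (x y : H) (hx : x ^ 3 = 1) : L →* H :=
  PresentedGroup.toGroup (f := ![x, y]) (by
    intro r hr
    simp only [rel, mem_singleton_iff] at hr
    subst hr
    simp [hx])

theorem lft_a {H : Type*} [Group H] (x y : H) (hx : x ^ 3 = 1) : lft x y hx a = x := by
  unfold lft a
  simp

theorem lft_b {H : Type*} [Group H] (x y : H) (hx : x ^ 3 = 1) : lft x y hx b = y := by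
  unfold lft b
  simp

/-- a subgroup containing `a` and `b` is everything -/
theorem mem_of_gens (P : Subgroup L) (ha : a ∈ P) (hb : b ∈ P) (x : L) : x ∈ P := by
  have h : P = ⊤ := by
    rw [eq_top_iff, ← PresentedGroup.closure_range_of rel, Subgroup.closure_le]
    rintro _ ⟨i, rfl⟩
    fin_cases i
    · exact ha
    · exact hb
  rw [h]
  trivial

/-- the exponent of `b` -/
def ex : L →* Multiplicative ℤ := lft 1 (Multiplicative.ofAdd 1) (by simp)

theorem ex_a : ex a = 1 := lft_a _ _ _
theorem ex_b : ex b = Multiplicative.ofAdd 1 := lft_b _ _ _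

theorem zpowers_a_iff (x : L) : x ∈ Subgroup.zpowers a ↔ x = 1 ∨ x = a ∨ x = a ^ 2 := by
  constructor
  · rintro ⟨k, rfl⟩
    beta_reduce
    have h3 : a ^ k = a ^ (k % 3) := by
      conv_lhs => rw [← Int.emod_add_mul_ediv k 3]
      rw [zpow_add, zpow_mul]
      have : a ^ (3:ℤ) = 1 := by exact_mod_cast a_cube
      rw [this]
      simp
    rw [h3]
    have h0 : 0 ≤ k % 3 := Int.emod_nonneg _ (by norm_num)
    have h1 : k % 3 < 3 := Int.emod_lt_of_pos _ (by norm_num)
    have : k % 3 = 0 ∨ k % 3 = 1 ∨ k % 3 = 2 := by omega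
    rcases this with h | h | h
    · left; rw [h]; simp
    · right; left; rw [h]; simp
    · right; right; rw [h]; norm_cast
  · rintro (rfl | rfl | rfl)
    · exact one_mem _
    · exact Subgroup.mem_zpowers a
    · exact Subgroup.pow_mem _ (Subgroup.mem_zpowers a) 2

theorem ex_of_mem {x : L} (hx : x ∈ Subgroup.zpowers a) : ex x = 1 := by
  rw [zpowers_a_iff] at hx
  rcases hx with rfl | rfl | rfl
  · simp
  · exact ex_a
  · rw [map_pow, ex_a]; simp

/-- detecting hom -/
def chi : L →* Equiv.Perm (Fin 4) := lft (Equiv.swap 0 1 * Equiv.swap 1 2) (Equiv.swap 0 3)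
  (by decide)

theorem chi_a : chi a = Equiv.swap 0 1 * Equiv.swap 1 2 := lft_a _ _ _
theorem chi_b : chi b = Equiv.swap 0 3 := lft_b _ _ _

theorem conj_not_mem {x : L} (hx : x ∈ Subgroup.zpowers a) (h1 : x ≠ 1) :
    b * x * b⁻¹ ∉ Subgroup.zpowers a := by
  intro h
  rw [zpowers_a_iff] at hx h
  have hc : chi (b * x * b⁻¹) = 1 ∨ chi (b * x * b⁻¹) = chi a ∨ chi (b * x * b⁻¹) = chi (a ^ 2) := by
    rcases h with h | h | h
    · left; rw [h]; simp
    · right; left; rw [h]
    · right; right; rw [h]
  rcases hx with rfl | rfl | rfl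
  · exact h1 rfl
  · rw [map_mul, map_mul, map_inv, map_pow, chi_a, chi_b] at hc
    revert hc
    decide
  · rw [map_mul, map_mul, map_inv, map_pow, chi_a, chi_b] at hc
    revert hc
    decide

/-- transpositions -/
def al1 : Equiv.Perm (Fin 3) := Equiv.swap 0 1
def al2 : Equiv.Perm (Fin 3) := Equiv.swap 1 2

open Classical in
/-- The labelling: `al1` on `⟨a⟩`, `al2` on `⟨a⟩ b`, trivial elsewhere. -/
noncomputable def sg (x : L) : Equiv.Perm (Fin 3) :=
  if x ∈ Subgroup.zpowers a then al1 else if x * b⁻¹ ∈ Subgroup.zpowers a then al2 else 1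

theorem sg_a (x : L) : sg (a * x) = sg x := by
  unfold sg
  have h : ∀ y : L, a * y ∈ Subgroup.zpowers a ↔ y ∈ Subgroup.zpowers a := fun y =>
    Subgroup.mul_mem_cancel_left _ (Subgroup.mem_zpowers a)
  rw [mul_assoc]
  simp only [h]

theorem sg_a' (x : L) : sg (a⁻¹ * x) = sg x := by
  rw [← sg_a (a⁻¹ * x), mul_inv_cancel_left]

theorem sg_one : sg 1 = al1 := by
  unfold sg
  rw [if_pos (one_mem _)]

theorem b_not_mem : b ∉ Subgroup.zpowers a := by
  intro h
  have := ex_of_mem h
  rw [ex_b] at this
  exact absurd this (by decide)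

theorem sg_b : sg b = al2 := by
  unfold sg
  rw [if_neg b_not_mem, mul_inv_cancel, if_pos (one_mem _)]

theorem sg_sq (x : L) : sg x * sg x = 1 := by
  unfold sg
  split_ifs
  · decide
  · decide
  · rfl

theorem sg_inv (x : L) : (sg x)⁻¹ = sg x := inv_eq_of_mul_eq_one_left (sg_sq x)

theorem sg_disj (x : L) (hx : x ≠ 1) : sg x = 1 ∨ sg (b * x) = 1 := by
  by_cases h1 : x ∈ Subgroup.zpowers a
  · right
    unfold sg
    rw [if_neg, if_neg]
    · exact conj_not_mem h1 hx
    · intro h
      have := ex_of_mem h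
      rw [map_mul, ex_b, ex_of_mem h1] at this
      exact absurd this (by decide)
  · by_cases h2 : x * b⁻¹ ∈ Subgroup.zpowers a
    · right
      have h3 := ex_of_mem h2
      rw [map_mul, map_inv, ex_b, mul_inv_eq_one] at h3
      unfold sg
      rw [if_neg, if_neg]
      · intro h
        have := ex_of_mem h
        rw [map_mul, map_mul, map_inv, ex_b, h3] at this
        exact absurd this (by decide)
      · intro h
        have := ex_of_mem h
        rw [map_mul, ex_b, h3] at this
        exact absurd this (by decide)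
    · left
      unfold sg
      rw [if_neg h1, if_neg h2]

theorem sg_finite : (Function.mulSupport sg).Finite := by
  have h : Function.mulSupport sg ⊆ ({1, a, a ^ 2} : Set L) ∪ ({b, a * b, a ^ 2 * b} : Set L) := by
    intro x hx
    rw [Function.mem_mulSupport] at hx
    unfold sg at hx
    split_ifs at hx with h1 h2
    · left
      rw [zpowers_a_iff] at h1
      simpa using h1
    · right
      rw [zpowers_a_iff] at h2
      rcases h2 with h | h | h
      · left
        exact mul_inv_eq_one.1 h
      · right; left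
        exact mul_inv_eq_iff_eq_mul.1 h
      · right; right
        exact mul_inv_eq_iff_eq_mul.1 h
    · exact absurd rfl hx
  refine Set.Finite.subset ?_ h
  exact (Set.toFinite _).union (Set.toFinite _)

/-- The compact space. -/
abbrev X := L → Fin 3

/-- The shift. -/
def sh : L →* (X ≃ₜ X) where
  toFun l :=
    { toFun := fun x m => x (l⁻¹ * m)
      invFun := fun x m => x (l * m)
      left_inv := fun x => by funext m; simp
      right_inv := fun x => by funext m; simp
      continuous_toFun := continuous_pi fun m => continuous_apply _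
      continuous_invFun := continuous_pi fun m => continuous_apply _ }
  map_one' := by
    ext x m
    simp
  map_mul' l l' := by
    ext x m
    simp [mul_assoc]

theorem sh_apply (l : L) (x : X) (m : L) : sh l x m = x (l⁻¹ * m) := rfl

/-- The coordinatewise action. -/
def dg : (L → Equiv.Perm (Fin 3)) →* (X ≃ₜ X) where
  toFun t :=
    { toFun := fun x m => t m (x m)
      invFun := fun x m => (t m)⁻¹ (x m)
      left_inv := fun x => by funext m; simp
      right_inv := fun x => by funext m; simp
      continuous_toFun := continuous_pi fun m => continuous_of_discreteTopology.comp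
        (continuous_apply _)
      continuous_invFun := continuous_pi fun m => continuous_of_discreteTopology.comp
        (continuous_apply _) }
  map_one' := by
    ext x m
    simp
  map_mul' l l' := by
    ext x m
    simp

theorem dg_apply (t : L → Equiv.Perm (Fin 3)) (x : X) (m : L) : dg t x m = t m (x m) := rfl

theorem sh_dg (l : L) (t : L → Equiv.Perm (Fin 3)) :
    sh l * dg t = dg (fun m => t (l⁻¹ * m)) * sh l := by
  ext x m
  rfl

/-- The action of the free group. -/
noncomputable def Th : FreeGroup (Fin 2) →* (X ≃ₜ X) := FreeGroup.lift ![sh a * dg sg, sh b]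

theorem Th_0 : Th (FreeGroup.of 0) = sh a * dg sg := by simp [Th]
theorem Th_1 : Th (FreeGroup.of 1) = sh b := by simp [Th]

theorem comm_a : Commute (sh a) (dg sg) := by
  show sh a * dg sg = dg sg * sh a
  rw [sh_dg]
  congr 2
  funext m
  exact sg_a' m

theorem dg_sg_sq : (dg sg) ^ 2 = 1 := by
  rw [← map_pow]
  have : sg ^ 2 = 1 := by
    funext m
    rw [Pi.pow_apply, pow_two, sg_sq]
    rfl
  rw [this, map_one]

theorem sh_a_mem : sh a ∈ Th.range := by
  refine ⟨FreeGroup.of 0 ^ 4, ?_⟩
  rw [map_pow, Th_0, comm_a.mul_pow]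
  have h1 : (dg sg) ^ 4 = 1 := by
    rw [show (4:ℕ) = 2 * 2 from rfl, pow_mul, dg_sg_sq, one_pow]
  rw [h1, mul_one, ← map_pow, pow_succ, a_cube, one_mul]

theorem dg_sg_mem : dg sg ∈ Th.range := by
  refine ⟨FreeGroup.of 0 ^ 3, ?_⟩
  rw [map_pow, Th_0, comm_a.mul_pow, ← map_pow, a_cube, map_one, one_mul, pow_succ, dg_sg_sq,
    one_mul]

theorem sh_mem (l : L) : sh l ∈ Th.range := by
  refine mem_of_gens (Th.range.comap sh) ?_ ?_ l
  · exact sh_a_mem
  · exact ⟨FreeGroup.of 1, Th_1⟩

/-- the three-cycle -/
def rho : Equiv.Perm (Fin 3) := al1 * al2 * al1⁻¹ * al2⁻¹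

theorem rho_trans (i j : Fin 3) : ∃ k : ℕ, (rho ^ k) i = j := by
  revert i j
  have : ∀ i j : Fin 3, (rho ^ 0) i = j ∨ (rho ^ 1) i = j ∨ (rho ^ 2) i = j := by decide
  intro i j
  rcases this i j with h | h | h
  · exact ⟨0, h⟩
  · exact ⟨1, h⟩
  · exact ⟨2, h⟩

open Classical in
theorem dg_one_mem : dg (Pi.mulSingle 1 rho) ∈ Th.range := by
  have h1 : sh b⁻¹ * dg sg * sh b = dg (fun m => sg (b * m)) := by
    rw [sh_dg, mul_assoc, ← map_mul, inv_mul_cancel, map_one, mul_one]
    simp
  have h2 : dg (fun m => sg (b * m)) ∈ Th.range := by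
    rw [← h1]
    exact mul_mem (mul_mem (sh_mem _) dg_sg_mem) (sh_mem _)
  have h3 : (Pi.mulSingle 1 rho : L → Equiv.Perm (Fin 3)) =
      sg * (fun m => sg (b * m)) * sg⁻¹ * (fun m => sg (b * m))⁻¹ := by
    funext m
    simp only [Pi.mul_apply, Pi.inv_apply]
    by_cases hm : m = 1
    · subst hm
      rw [Pi.mulSingle_eq_same, mul_one, sg_one, sg_b]
      rfl
    · rw [Pi.mulSingle_eq_of_ne hm]
      rcases sg_disj m hm with h | h
      · rw [h]; simp
      · rw [h]; simp
  rw [h3, map_mul, map_mul, map_mul, map_inv, map_inv]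
  exact mul_mem (mul_mem (mul_mem dg_sg_mem h2) (inv_mem dg_sg_mem)) (inv_mem h2)

open Classical in
theorem dg_single_mem (l : L) (k : ℕ) : dg (Pi.mulSingle l (rho ^ k)) ∈ Th.range := by
  have h : dg (Pi.mulSingle l rho) = sh l * dg (Pi.mulSingle 1 rho) * sh l⁻¹ := by
    rw [sh_dg, mul_assoc, ← map_mul, mul_inv_cancel, map_one, mul_one]
    congr 1
    funext m
    by_cases hm : m = l
    · subst hm
      simp
    · rw [Pi.mulSingle_eq_of_ne hm, Pi.mulSingle_eq_of_ne]
      intro h
      exact hm (inv_mul_eq_one.1 h).symm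
  have h' : dg (Pi.mulSingle l (rho ^ k)) = dg (Pi.mulSingle l rho) ^ k := by
    rw [← map_pow, Pi.mulSingle_pow]
  rw [h', h]
  exact pow_mem (mul_mem (mul_mem (sh_mem _) dg_one_mem) (sh_mem _)) k

/-- any finite pattern can be reached by the group -/
theorem reach (x y : X) (F : Finset L) :
    ∃ g : FreeGroup (Fin 2), ∀ m ∈ F, Th g x m = y m := by
  classical
  suffices h : ∃ t : L → Equiv.Perm (Fin 3), dg t ∈ Th.range ∧ ∀ m ∈ F, t m (x m) = y m by
    obtain ⟨t, ⟨g, hg⟩, ht⟩ := h
    refine ⟨g, fun m hm => ?_⟩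
    rw [hg, dg_apply, ht m hm]
  induction F using Finset.induction_on with
  | empty => exact ⟨1, by rw [map_one]; exact one_mem _, fun m hm => by simp at hm⟩
  | insert l F hl ih =>
    obtain ⟨t, ht1, ht2⟩ := ih
    obtain ⟨k, hk⟩ := rho_trans (t l (x l)) (y l)
    refine ⟨Pi.mulSingle l (rho ^ k) * t, ?_, ?_⟩
    · rw [map_mul]
      exact mul_mem (dg_single_mem l k) ht1
    · intro m hm
      rw [Pi.mul_apply]
      rcases Finset.mem_insert.1 hm with rfl | hm
      · rw [Pi.mulSingle_eq_same]
        exact hk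
      · have : m ≠ l := fun h => hl (h ▸ hm)
        rw [Pi.mulSingle_eq_of_ne this, one_mul]
        exact ht2 m hm

/-- every element of the group is a shift followed by a finite coordinate change -/
theorem form (g : FreeGroup (Fin 2)) : ∃ (t : L → Equiv.Perm (Fin 3)) (l : L),
    (Function.mulSupport t).Finite ∧ Th g = dg t * sh l := by
  have hinv : ∀ g : FreeGroup (Fin 2), (∃ (t : L → Equiv.Perm (Fin 3)) (l : L),
      (Function.mulSupport t).Finite ∧ Th g = dg t * sh l) →
      ∃ (t : L → Equiv.Perm (Fin 3)) (l : L),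
      (Function.mulSupport t).Finite ∧ Th g⁻¹ = dg t * sh l := by
    rintro g ⟨t, l, ht, hg⟩
    refine ⟨fun m => (t (l * m))⁻¹, l⁻¹, ?_, ?_⟩
    · have : Function.mulSupport (fun m => (t (l * m))⁻¹) ⊆
          (fun m => l⁻¹ * m) '' Function.mulSupport t := by
        intro m hm
        refine ⟨l * m, ?_, by simp⟩
        rw [Function.mem_mulSupport] at hm ⊢
        intro h
        exact hm (by rw [h, inv_one])
      exact (ht.image _).subset this
    · rw [map_inv, hg, mul_inv_rev, ← map_inv, ← map_inv, sh_dg]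
      simp only [inv_inv]
      rfl
  induction g using FreeGroup.induction_on with
  | C1 => exact ⟨1, 1, by simp, by simp⟩
  | of i =>
    fin_cases i
    · refine ⟨sg, a, sg_finite, ?_⟩
      rw [← comm_a.eq]
      exact Th_0
    · exact ⟨1, b, by simp, by rw [map_one, one_mul]; exact Th_1⟩
  | inv_of i ih => exact hinv _ ih
  | mul x y ihx ihy =>
    obtain ⟨t, l, ht, hg⟩ := ihx
    obtain ⟨t', l', ht', hg'⟩ := ihy
    refine ⟨t * fun m => t' (l⁻¹ * m), l * l', ?_, ?_⟩
    · have h2 : (Function.mulSupport (fun m => t' (l⁻¹ * m))).Finite := by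
        have : Function.mulSupport (fun m => t' (l⁻¹ * m)) ⊆
            (fun m => l * m) '' Function.mulSupport t' := by
          intro m hm
          exact ⟨l⁻¹ * m, hm, by simp⟩
        exact (ht'.image _).subset this
      exact (ht.union h2).subset (Function.mulSupport_mul _ _)
    · rw [map_mul, hg, hg', map_mul, map_mul]
      calc dg t * sh l * (dg t' * sh l') = dg t * (sh l * dg t') * sh l' := by group
        _ = dg t * (dg (fun m => t' (l⁻¹ * m)) * sh l) * sh l' := by rw [sh_dg]
        _ = _ := by group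

end Pool.Agent.H139R3.MS
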