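import Mathlib
import Pool.Agent.H139R3.FM
import Pool.Agent.H139R3.MSGroup

set_option autoImplicit false
set_option linter.unusedSectionVars false

/-!
# Reduction of countable Borel equivalence relations to the action on `(Fin 3)^L`
-/

namespace Pool.Agent.H139R3.MS

open Set MeasureTheory

universe u

section act

variable {Y : Type u} (s : ℕ → Y → Y)

/-- The auxiliary space. -/
abbrev ZZ (Y : Type u) := Y × (ℤ × Fin 3)

def az : ZZ Y → ZZ Y := fun p => (p.1, (p.2.1, p.2.2 + 1))

def bz : ZZ Y → ZZ Y := fun p =>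
  if p.2.2 = 0 then (p.1, (p.2.1 - 1, 1)) else if p.2.2 = 1 then (p.1, (p.2.1 + 1, 0)) else
    (s p.2.1.natAbs p.1, p.2)

theorem bz_0 (y : Y) (n : ℤ) : bz s (y, (n, 0)) = (y, (n - 1, 1)) := by
  simp [bz]
theorem bz_1 (y : Y) (n : ℤ) : bz s (y, (n, 1)) = (y, (n + 1, 0)) := by
  simp [bz]
theorem bz_2 (y : Y) (n : ℤ) : bz s (y, (n, 2)) = (s n.natAbs y, (n, 2)) := by
  simp [bz]

theorem az_az (p : ZZ Y) : az (az (az p)) = p := by
  obtain ⟨y, n, i⟩ := p
  simp only [az]
  congr 2
  revert i
  decide

theorem bz_bz (hs : ∀ n x, s n (s n x) = x) (p : ZZ Y) : bz s (bz s p) = p := by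
  obtain ⟨y, n, i⟩ := p
  fin_cases i
  · show bz s (bz s (y, (n, 0))) = (y, (n, 0))
    rw [bz_0, bz_1, sub_add_cancel]
  · show bz s (bz s (y, (n, 1))) = (y, (n, 1))
    rw [bz_1, bz_0, add_sub_cancel_right]
  · show bz s (bz s (y, (n, 2))) = (y, (n, 2))
    rw [bz_2, bz_2, hs]

def azE : Equiv.Perm (ZZ Y) where
  toFun := az
  invFun := fun p => az (az p)
  left_inv := az_az
  right_inv := az_az

theorem azE_cube : (azE : Equiv.Perm (ZZ Y)) ^ 3 = 1 := by
  ext p : 1
  exact az_az p

def bzE (hs : ∀ n x, s n (s n x) = x) : Equiv.Perm (ZZ Y) where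
  toFun := bz s
  invFun := bz s
  left_inv := bz_bz s hs
  right_inv := bz_bz s hs

theorem bzE_sq (hs : ∀ n x, s n (s n x) = x) : bzE s hs ^ 2 = 1 := by
  ext p : 1
  exact bz_bz s hs p

/-- The action of `L` on the auxiliary space. -/
def th (hs : ∀ n x, s n (s n x) = x) : L →* Equiv.Perm (ZZ Y) := lft azE (bzE s hs) azE_cube

variable (hs : ∀ n x, s n (s n x) = x)

theorem th_a : th s hs a = azE := lft_a _ _ _
theorem th_b : th s hs b = bzE s hs := lft_b _ _ _

theorem th_a_apply (p : ZZ Y) : th s hs a p = az p := by rw [th_a]; rfl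
theorem th_b_apply (p : ZZ Y) : th s hs b p = bz s p := by rw [th_b]; rfl

theorem th_b_sq (k : ℕ) (p : ZZ Y) : th s hs ((b ^ 2) ^ k) p = p := by
  rw [map_pow, map_pow, th_b, bzE_sq, one_pow]
  rfl

/-- the path element -/
def nu (n : ℕ) : L := (b * a) ^ n * a

theorem th_nu (n : ℕ) (y : Y) : th s hs (nu n) (y, (0, 2)) = (y, ((n : ℤ), 0)) := by
  have h0 : th s hs a (y, (0, 2)) = (y, (0, 0)) := by
    rw [th_a_apply]
    rfl
  have h1 : ∀ n : ℕ, th s hs ((b * a) ^ n) (y, (0, 0)) = (y, ((n : ℤ), 0)) := by
    intro n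
    induction n with
    | zero => simp
    | succ n ih =>
      rw [pow_succ', map_mul, Equiv.Perm.mul_apply, ih, map_mul, Equiv.Perm.mul_apply, th_a_apply]
      have : az (y, ((n : ℤ), (0 : Fin 3))) = (y, ((n : ℤ), 1)) := rfl
      rw [this, th_b_apply, bz_1]
      push_cast
      rfl
  unfold nu
  rw [map_mul, Equiv.Perm.mul_apply, h0, h1]

theorem th_nu2 (n : ℕ) (y : Y) : th s hs (a ^ 2 * nu n) (y, (0, 2)) = (y, ((n : ℤ), 2)) := by
  rw [map_mul, Equiv.Perm.mul_apply, th_nu, map_pow, th_a]
  rfl

/-- the element which realizes the involution `s n` at the base point -/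
def om (n : ℕ) : L := (a ^ 2 * nu n)⁻¹ * b * (a ^ 2 * nu n)

theorem th_om (n : ℕ) (y : Y) : th s hs (om n) (y, (0, 2)) = (s n y, (0, 2)) := by
  unfold om
  rw [map_mul, map_mul, Equiv.Perm.mul_apply, Equiv.Perm.mul_apply, th_nu2, th_b_apply, bz_2,
    map_inv, Equiv.Perm.inv_eq_iff_eq, th_nu2]
  rfl

theorem th_rel (R : Y → Y → Prop) (hR : Equivalence R) (hsR : ∀ n x, R x (s n x)) (l : L)
    (p : ZZ Y) : R p.1 (th s hs l p).1 := by
  let P : Subgroup L :=
    { carrier := {l | ∀ p : ZZ Y, R p.1 (th s hs l p).1}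
      mul_mem' := by
        intro x y hx hy p
        rw [map_mul, Equiv.Perm.mul_apply]
        exact hR.trans (hy p) (hx _)
      one_mem' := by
        intro p
        rw [map_one]
        exact hR.refl _
      inv_mem' := by
        intro x hx p
        have := hx (th s hs x⁻¹ p)
        rw [← Equiv.Perm.mul_apply, ← map_mul, mul_inv_cancel, map_one] at this
        exact hR.symm this }
  refine mem_of_gens P ?_ ?_ l p
  · intro p
    rw [th_a_apply]
    exact hR.refl _
  · intro p
    rw [th_b_apply]
    obtain ⟨y, n, i⟩ := p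
    fin_cases i
    · show R y (bz s (y, (n, 0))).1
      rw [bz_0]
      exact hR.refl _
    · show R y (bz s (y, (n, 1))).1
      rw [bz_1]
      exact hR.refl _
    · show R y (bz s (y, (n, 2))).1
      rw [bz_2]
      exact hsR _ _

end act

section meas

variable {Y : Type u} [MeasurableSpace Y] (s : ℕ → Y → Y) (hs : ∀ n x, s n (s n x) = x)

theorem measurable_az : Measurable (az : ZZ Y → ZZ Y) := by
  refine measurable_from_prod_countable_left ?_
  rintro ⟨n, i⟩
  show Measurable (fun y : Y => ((y, (n, i + 1)) : ZZ Y))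
  exact measurable_id.prodMk measurable_const

theorem measurable_bz (hm : ∀ n, Measurable (s n)) : Measurable (bz s) := by
  refine measurable_from_prod_countable_left ?_
  rintro ⟨n, i⟩
  fin_cases i
  · show Measurable (fun y => bz s (y, (n, 0)))
    simp only [bz_0]
    exact measurable_id.prodMk measurable_const
  · show Measurable (fun y => bz s (y, (n, 1)))
    simp only [bz_1]
    exact measurable_id.prodMk measurable_const
  · show Measurable (fun y => bz s (y, (n, 2)))
    simp only [bz_2]
    exact (hm _).prodMk measurable_const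

theorem measurable_th (hm : ∀ n, Measurable (s n)) (l : L) : Measurable (th s hs l) := by
  let P : Subgroup L :=
    { carrier := {l | Measurable (th s hs l) ∧ Measurable (th s hs l⁻¹)}
      mul_mem' := by
        rintro x y ⟨hx, hx'⟩ ⟨hy, hy'⟩
        refine ⟨?_, ?_⟩
        · rw [map_mul]
          exact hx.comp hy
        · rw [mul_inv_rev, map_mul]
          exact hy'.comp hx'
      one_mem' := by
        refine ⟨?_, ?_⟩
        · rw [map_one]
          exact measurable_id
        · rw [inv_one, map_one]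
          exact measurable_id
      inv_mem' := by
        rintro x ⟨hx, hx'⟩
        exact ⟨hx', by rw [inv_inv]; exact hx⟩ }
  have h : l ∈ P := by
    refine mem_of_gens P ?_ ?_ l
    · refine ⟨?_, ?_⟩
      · rw [th_a]
        exact measurable_az
      · rw [map_inv, th_a]
        exact measurable_az.comp measurable_az
    · refine ⟨?_, ?_⟩
      · rw [th_b]
        exact measurable_bz s hm
      · rw [map_inv, th_b]
        exact measurable_bz s hm
  exact h.1

/-- The observable. -/
def psi (e : Y → ℕ → Bool) : ZZ Y → Fin 3 := fun p =>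
  if p.2.2 = 2 then (if p.2.1 = 0 then 2 else 0) else
    if p.2.2 = 0 then (if e p.1 p.2.1.natAbs then 1 else 0) else 0

theorem measurable_psi (e : Y → ℕ → Bool) (he : Measurable e) : Measurable (psi e) := by
  refine measurable_from_prod_countable_left ?_
  rintro ⟨n, i⟩
  have hk : ∀ k : ℕ, Measurable (fun y => e y k) := fun k => (measurable_pi_apply k).comp he
  fin_cases i
  · show Measurable (fun y => psi e (y, (n, 0)))
    have : (fun y => psi e (y, (n, 0))) = fun y => (fun c : Bool => if c then (1 : Fin 3) else 0)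
        (e y n.natAbs) := by
      funext y
      simp [psi]
    rw [this]
    exact (measurable_of_countable (fun c : Bool => if c then (1 : Fin 3) else 0)).comp (hk _)
  · show Measurable (fun y => psi e (y, (n, 1)))
    have : (fun y => psi e (y, (n, 1))) = fun _ => 0 := by
      funext y
      simp [psi]
    rw [this]
    exact measurable_const
  · show Measurable (fun y => psi e (y, (n, 2)))
    have : (fun y => psi e (y, (n, 2))) = fun _ => if n = 0 then 2 else 0 := by
      funext y
      simp [psi]
    rw [this]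
    exact measurable_const

/-- The itinerary map. -/
def it (e : Y → ℕ → Bool) (p : ZZ Y) : X := fun m => psi e (th s hs m⁻¹ p)

theorem sh_it (e : Y → ℕ → Bool) (p : ZZ Y) (l : L) : sh l (it s hs e p) = it s hs e (th s hs l p) := by
  funext m
  rw [sh_apply]
  unfold it
  rw [mul_inv_rev, inv_inv, map_mul]
  rfl

theorem b_pow_inj : Function.Injective (fun k : ℕ => (b ^ 2) ^ k) := by
  intro k k' h
  beta_reduce at h
  have := congrArg ex h
  rw [map_pow, map_pow, map_pow, map_pow, ex_b] at this
  have h2 := congrArg Multiplicative.toAdd this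
  simp only [toAdd_pow, toAdd_ofAdd] at h2
  simpa using h2

/-- Itineraries which differ at finitely many places are equal. -/
theorem robust (e : Y → ℕ → Bool) (p q : ZZ Y)
    (h : {m | it s hs e p m ≠ it s hs e q m}.Finite) : it s hs e p = it s hs e q := by
  funext m
  by_contra hm
  refine Set.infinite_range_of_injective (f := fun k : ℕ => (b ^ 2) ^ k * m) ?_ (h.subset ?_)
  · intro k k' hk
    exact b_pow_inj (mul_right_cancel hk)
  · rintro _ ⟨k, rfl⟩
    have : ∀ r : ZZ Y, it s hs e r ((b ^ 2) ^ k * m) = it s hs e r m := by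
      intro r
      unfold it
      rw [mul_inv_rev, map_mul, Equiv.Perm.mul_apply]
      congr 2
      rw [map_inv, Equiv.Perm.inv_eq_iff_eq, th_b_sq]
    show it s hs e p ((b ^ 2) ^ k * m) ≠ it s hs e q ((b ^ 2) ^ k * m)
    rw [this, this]
    exact hm

theorem psi_eq_two (e : Y → ℕ → Bool) (p : ZZ Y) (h : psi e p = 2) : p.2 = (0, 2) := by
  obtain ⟨y, n, i⟩ := p
  unfold psi at h
  simp only at h
  split_ifs at h with h1 h2 h3 h4
  · show (n, i) = _
    rw [h1, h2]
  · exact absurd h (by decide)
  · exact absurd h (by decide)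
  · exact absurd h (by decide)
  · exact absurd h (by decide)

theorem it_inj (e : Y → ℕ → Bool) (hinj : Function.Injective e) (q : ZZ Y) (y : Y)
    (h : it s hs e q = it s hs e (y, (0, 2))) : q = (y, (0, 2)) := by
  have h1 := congrFun h 1
  unfold it at h1
  rw [inv_one, map_one] at h1
  have h2 : psi e ((1 : Equiv.Perm (ZZ Y)) (y, (0, 2))) = 2 := by
    show psi e (y, (0, 2)) = 2
    simp [psi]
  rw [h2] at h1
  have h3 := psi_eq_two e q h1
  obtain ⟨y1, d⟩ := q
  simp only at h3
  subst h3
  congr 1
  apply hinj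
  funext n
  have h4 := congrFun h (nu n)⁻¹
  unfold it at h4
  rw [inv_inv, th_nu, th_nu] at h4
  have h5 : ∀ z : Y, psi e (z, ((n : ℤ), 0)) = if e z n then 1 else 0 := by
    intro z
    simp [psi]
  rw [h5, h5] at h4
  cases hy : e y n <;> cases hy1 : e y1 n <;> simp_all

theorem measurable_it (hm : ∀ n, Measurable (s n)) (e : Y → ℕ → Bool) (he : Measurable e) (m : L) :
    Measurable (fun y : Y => it s hs e (y, (0, 2)) m) := by
  unfold it
  exact (measurable_psi e he).comp ((measurable_th s hs hm _).comp
    (measurable_id.prodMk measurable_const))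

end meas

end Pool.Agent.H139R3.MS
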