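import Mathlib
import Pool.Agent.H139R3.MSUniv
import Pool.Agent.H139R3.MSDefs

set_option autoImplicit false

/-!
# The free group of rank two is minimal subshift universal
-/

namespace Pool.Agent.H139R3.MS

open Set MeasureTheory

universe u

/-- The coding map. -/
noncomputable def Ph (x : X) : FreeGroup (Fin 2) → Bool := fun g => decide (Th g⁻¹ x 1 = 0)

theorem Ph_shift (g : FreeGroup (Fin 2)) (x : X) : Ph (Th g x) = shift g (Ph x) := by
  funext h
  unfold Ph shift
  beta_reduce
  rw [mul_inv_rev, inv_inv, map_mul]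
  rfl

theorem continuous_Ph : Continuous Ph := by
  refine continuous_pi fun g => ?_
  unfold Ph
  exact (continuous_of_discreteTopology (f := fun i : Fin 3 => decide (i = 0))).comp
    ((continuous_apply 1).comp (Th g⁻¹).continuous)

theorem Ph_injective : Function.Injective Ph := by
  classical
  intro x y h
  have h1 : ∀ g : FreeGroup (Fin 2), Th g x 1 = 0 ↔ Th g y 1 = 0 := by
    intro g
    have := congrFun h g⁻¹
    unfold Ph at this
    rw [inv_inv] at this
    simpa using this
  funext m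
  obtain ⟨k, hk⟩ := rho_trans (x m) 0
  have hmem : dg (Pi.mulSingle 1 (rho ^ k)) * sh m⁻¹ ∈ Th.range :=
    mul_mem (dg_single_mem 1 k) (sh_mem _)
  obtain ⟨g, hg⟩ := hmem
  have e : ∀ z : X, Th g z 1 = (rho ^ k) (z m) := by
    intro z
    rw [hg]
    show (Pi.mulSingle 1 (rho ^ k) : L → Equiv.Perm (Fin 3)) 1 (sh m⁻¹ z 1) = _
    rw [Pi.mulSingle_eq_same, sh_apply]
    simp
  have h2 := h1 g
  rw [e, e] at h2
  have h3 := h2.1 hk
  exact (rho ^ k).injective (hk.trans h3.symm)

theorem dense_orbit (x y : X) : y ∈ closure (range fun g : FreeGroup (Fin 2) => Th g x) := by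
  classical
  rw [mem_closure_iff]
  intro U hU hy
  obtain ⟨F, u, hu, hsub⟩ := isOpen_pi_iff.1 hU y hy
  obtain ⟨g, hg⟩ := reach x y F
  refine ⟨Th g x, hsub ?_, g, rfl⟩
  intro m hm
  rw [hg m hm]
  exact (hu m hm).2

theorem reduction {Y : Type u} [MeasurableSpace Y] [StandardBorelSpace Y] (R : Y → Y → Prop)
    (hR : Equivalence R) (hm : MeasurableSet {p : Y × Y | R p.1 p.2})
    (hc : ∀ y, {z | R y z}.Countable) :
    ∃ f : Y → (FreeGroup (Fin 2) → Bool), Measurable f ∧ (∀ y, f y ∈ range Ph) ∧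
      ∀ y z, R y z ↔ ∃ g, f z = shift g (f y) := by
  obtain ⟨s, hsm, hs, hsR⟩ := FM.feldman_moore R hR hm hc
  obtain ⟨e, he, hinj⟩ := MeasurableSpace.measurable_injection_nat_bool_of_countablySeparated Y
  refine ⟨fun y => Ph (it s hs e (y, (0, 2))), ?_, fun y => ⟨_, rfl⟩, ?_⟩
  · rw [measurable_pi_iff]
    intro g
    obtain ⟨t, l, -, hg⟩ := form g⁻¹
    unfold Ph
    rw [hg]
    have : (fun y : Y => decide ((dg t * sh l) (it s hs e (y, (0, 2))) 1 = 0)) =
        (fun i : Fin 3 => decide (t 1 i = 0)) ∘ (fun y : Y => it s hs e (y, (0, 2)) (l⁻¹ * 1)) := by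
      funext y
      rfl
    rw [this]
    exact (measurable_of_countable (fun i : Fin 3 => decide (t 1 i = 0))).comp
      (measurable_it s hs hsm e he _)
  · intro y z
    constructor
    · intro h
      obtain ⟨n, hn⟩ := (hsR y z).1 h
      obtain ⟨g, hg⟩ := sh_mem (om n)
      refine ⟨g, ?_⟩
      rw [← Ph_shift, hg, sh_it, th_om, hn]
    · rintro ⟨g, hg⟩
      rw [← Ph_shift] at hg
      have h1 := Ph_injective hg
      obtain ⟨t, l, ht, hf⟩ := form g
      rw [hf] at h1
      have h2 : it s hs e (th s hs l (y, (0, 2))) = it s hs e (z, (0, 2)) := by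
        apply robust
        refine ht.subset ?_
        intro m hm
        rw [Function.mem_mulSupport]
        intro hcon
        apply hm
        rw [h1, ← sh_it]
        show _ = t m (sh l (it s hs e (y, (0, 2))) m)
        rw [hcon]
        rfl
      have h3 := it_inj s hs e hinj _ z h2
      have h4 := th_rel s hs R hR (fun n x => (hsR x _).2 ⟨n, rfl⟩) l (y, (0, 2))
      rw [h3] at h4
      exact h4

/-- The minimal subshift. -/
noncomputable def K0 : Set (FreeGroup (Fin 2) → Bool) := range Ph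

theorem K0_minimal : IsMinimalSubshift K0 := by
  refine ⟨⟨⟨Ph (fun _ => 0), _, rfl⟩, (isCompact_range continuous_Ph).isClosed, ?_⟩, ?_⟩
  · rintro g _ ⟨x, rfl⟩
    exact ⟨Th g x, Ph_shift g x⟩
  · rintro _ ⟨x, rfl⟩ _ ⟨y, rfl⟩
    have h := image_closure_subset_closure_image continuous_Ph ⟨y, dense_orbit x y, rfl⟩
    rw [← range_comp] at h
    convert h using 3
    funext g
    exact (Ph_shift g x).symm

theorem K0_universal : UniversalOn.{u} K0 := by
  intro Y _ _ R hR
  obtain ⟨f, hf, hK, h⟩ := reduction R hR.1 hR.2.1 hR.2.2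
  exact ⟨fun y => ⟨f y, hK y⟩, hf.subtype_mk, h⟩

end Pool.Agent.H139R3.MS
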